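import Pool.Agent.Helper28.MT.Goals2

/-!
# Project MT2 (MP_bb782b_co), packet STEPN: one more set, natural costs
-/

set_option autoImplicit false

namespace Pool.Agent.Helper81.MT2

open Finset
open Pool.Agent.Helper55.Rota
open Pool.Agent.Helper28.MT Pool.Agent.Helper28.MT2

lemma lv_le (s m : ℕ) : lv s m ≤ s + 1 := by
  unfold lv
  split_ifs with h1 h2
  · have h3 : m / 2 ^ s < s := by
      apply Nat.div_lt_of_lt_mul
      rw [mul_comm]
      exact h1
    omega
  · omega
  · omega

lemma min_le_sum {C : ℕ → ℕ} (h0 : C 0 = 0) (hC : Monotone C) (s d : ℕ) :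
    min d (C s) ≤ ∑ l ∈ range s, (if C l < d then C (l + 1) - C l else 0) := by
  induction s with
  | zero => simp [h0]
  | succ s ih =>
    rw [sum_range_succ]
    have h := hC (Nat.le_succ s)
    have h' : C s ≤ C (s + 1) := h
    split_ifs with h1
    · omega
    · omega

lemma sum_eq {C : ℕ → ℕ} (h0 : C 0 = 0) {s v : ℕ} (hv : v ≤ s + 1) :
    C v = ∑ l ∈ range (s + 1), (if v = l + 1 then C (l + 1) else 0) := by
  rcases v with _ | v
  · rw [h0]
    symm
    refine sum_eq_zero fun l _ => ?_
    rw [if_neg (by omega)]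
  · rw [sum_eq_single v]
    · rw [if_pos rfl]
    · intro l _ hl
      rw [if_neg (by omega)]
    · intro h
      exact absurd (mem_range.2 (by omega)) h

theorem mt2_stepn : G_K → G_U → G_STEPN := by
  intro hK hU α _ _ R n k h s b f j V C hk hs hj hR hloop hLab hV1 hV2 hC0 hC
  obtain ⟨hLa, hLb⟩ := hLab
  set S := alw s f j \ V with hS
  have hj0 : j / 2 ^ (s + 1) = 0 := by
    apply Nat.div_eq_of_lt
    have : 2 ^ s ≤ 2 ^ (s + 1) := Nat.pow_le_pow_right (by norm_num) (by omega)
    omega
  -- the hypothesis of `G_K`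
  have hcond : ∀ (I : Finset (Fin n)) (F : Finset α), Closed R F → R.r F < I.card →
      k * (I.card - R.r F) ≤ 8 * (S ∩ (blkU b I \ F)).card := by
    intro I F hF hlt
    have h1 := hLb I F hF hlt
    have h2 : rsv s (s + 1) 0 f ∩ (blkU b I \ F) ⊆
        (S ∩ (blkU b I \ F)) ∪ (V ∩ rsv s (s + 1) 0 f) := by
      intro x hx
      rw [mem_inter] at hx
      rw [mem_union, mem_inter, mem_inter]
      by_cases hu : x ∈ V
      · exact Or.inr ⟨hu, hx.1⟩
      · refine Or.inl ⟨?_, hx.2⟩
        rw [hS, mem_sdiff]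
        refine ⟨?_, hu⟩
        have hx1 := hx.1
        simp only [rsv, mem_filter, mem_univ, true_and] at hx1
        simp only [alw, mem_filter, mem_univ, true_and]
        rw [hx1.1, hx1.2, hj0]
    have h3 := (card_le_card h2).trans (card_union_le _ _)
    have h4 : k * 1 ≤ k * (I.card - R.r F) := Nat.mul_le_mul_left k (by omega)
    omega
  obtain ⟨T0, y, v, hOpt, hcost⟩ := hK α R n k b S (fun x => C (lv s (f x))) hR hloop hk hcond
  have hOpt' := hOpt
  obtain ⟨hT1, hT2, hT3, hT4, hT5, hT6, hT7⟩ := hOpt'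
  -- the level sets are small
  have hsmall : ∀ l < s + 1, (univ.filter (fun x => v x + C l < y (b x))).card ≤
      Lth h k s l := by
    intro l hl
    obtain ⟨e, g, heg⟩ := hU α R n b S (fun x => C (lv s (f x))) T0 y v (C l) hR hOpt
    by_contra hcon
    rw [not_le, heg] at hcon
    have hg : j / 2 ^ l < 2 ^ (s - l) := by
      apply Nat.div_lt_of_lt_mul
      rw [← pow_add]
      have : l + (s - l) = s := by omega
      rw [this]
      exact hj
    have h1 := hLa l (by omega) (j / 2 ^ l) hg e g hcon.le
    rw [← heg] at h1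
    have h2 : rsv s l (j / 2 ^ l) f ∩ univ.filter (fun x => v x + C l < y (b x)) ⊆
        V ∩ rsv s l (j / 2 ^ l) f := by
      intro x hx
      rw [mem_inter] at hx
      rw [mem_inter]
      refine ⟨?_, hx.1⟩
      by_contra hu
      have hx1 := hx.1
      have hx2 := hx.2
      simp only [rsv, mem_filter, mem_univ, true_and] at hx1
      simp only [mem_filter, mem_univ, true_and] at hx2
      have hxS : x ∈ S := by
        rw [hS, mem_sdiff]
        refine ⟨?_, hu⟩
        simp only [alw, mem_filter, mem_univ, true_and]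
        rw [hx1.1, hx1.2]
      have h3 := hT5 x hxS
      have h4 : C (lv s (f x)) = C l := by rw [hx1.1]
      simp only [h4] at h3
      omega
    have h3 := card_le_card h2
    have h4 := hV1 l (by omega)
    omega
  -- the cost of `T0`
  have hsum : ∑ x ∈ S, (y (b x) - v x) ≤ ∑ l ∈ range (s + 1), (C (l + 1) - C l) * Lth h k s l := by
    have h1 : ∀ x ∈ S, (y (b x) - v x) ≤
        ∑ l ∈ range (s + 1), (if v x + C l < y (b x) then C (l + 1) - C l else 0) := by
      intro x hx
      have h2 : y (b x) ≤ v x + C (lv s (f x)) := hT5 x hx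
      have h3 : C (lv s (f x)) ≤ C (s + 1) := hC (lv_le s (f x))
      have h4 := min_le_sum hC0 hC (s + 1) (y (b x) - v x)
      rw [min_eq_left (by omega)] at h4
      refine h4.trans (le_of_eq ?_)
      apply sum_congr rfl
      intro l _
      have h5 : C l < y (b x) - v x ↔ v x + C l < y (b x) := by omega
      simp only [h5]
    calc ∑ x ∈ S, (y (b x) - v x)
        ≤ ∑ x ∈ S, ∑ l ∈ range (s + 1), (if v x + C l < y (b x) then C (l + 1) - C l else 0) :=
          sum_le_sum h1
      _ = ∑ l ∈ range (s + 1), ∑ x ∈ S, (if v x + C l < y (b x) then C (l + 1) - C l else 0) :=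
          sum_comm
      _ ≤ ∑ l ∈ range (s + 1), (C (l + 1) - C l) * Lth h k s l := by
          apply sum_le_sum
          intro l hl
          rw [mem_range] at hl
          have h2 : ∑ x ∈ S, (if v x + C l < y (b x) then C (l + 1) - C l else 0) ≤
              ∑ x : α, (if v x + C l < y (b x) then C (l + 1) - C l else 0) :=
            sum_le_sum_of_subset (subset_univ S)
          have h3 : ∑ x : α, (if v x + C l < y (b x) then C (l + 1) - C l else 0) =
              (univ.filter (fun x => v x + C l < y (b x))).card * (C (l + 1) - C l) := by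
            rw [← sum_filter, sum_const, smul_eq_mul]
          rw [h3, mul_comm] at h2
          exact h2.trans (Nat.mul_le_mul_left _ (hsmall l hl))
  refine ⟨T0, hT1, hT2, hT3, ?_⟩
  have hc : ∑ l ∈ range (s + 1), C (l + 1) * (T0 ∩ rsv s (l + 1) (j / 2 ^ (l + 1)) f).card =
      ∑ x ∈ T0, C (lv s (f x)) := by
    have h1 : ∀ x ∈ T0, C (lv s (f x)) =
        ∑ l ∈ range (s + 1), (if lv s (f x) = l + 1 then C (l + 1) else 0) :=
      fun x _ => sum_eq hC0 (lv_le s (f x))
    rw [sum_congr rfl h1, sum_comm]
    apply sum_congr rfl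
    intro l _
    rw [← sum_filter, sum_const, smul_eq_mul, mul_comm]
    congr 2
    ext x
    simp only [rsv, mem_inter, mem_filter, mem_univ, true_and]
    constructor
    · rintro ⟨a1, a2, -⟩
      exact ⟨a1, a2⟩
    · rintro ⟨a1, a2⟩
      refine ⟨a1, a2, ?_⟩
      have h2 := hT1 a1
      rw [hS, mem_sdiff] at h2
      have h3 := h2.1
      simp only [alw, mem_filter, mem_univ, true_and] at h3
      rw [h3, a2]
  rw [hc]
  exact hcost.trans (Nat.mul_le_mul_left _ hsum)

end Pool.Agent.Helper81.MT2
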